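import Mathlib

set_option autoImplicit false
open Matrix Function MulOpposite

namespace Pool.Agent.Results.MP_62e324_al.Yes

variable {S B : Type*} [Ring S] [Ring B] (ι : S →+* B) (x : B)

def F (k : ℕ) : AddSubgroup B := AddSubgroup.closure {b | ∃ r, ∃ i ≤ k, b = ι r * x ^ i}

lemma F_mono {k l : ℕ} (h : k ≤ l) : F ι x k ≤ F ι x l :=
  AddSubgroup.closure_mono fun _ ⟨r, i, hi, e⟩ => ⟨r, i, hi.trans h, e⟩

lemma F_rep {k : ℕ} {b : B} (h : b ∈ F ι x k) :
    ∃ r : Fin (k + 1) → S, b = ∑ i, ι (r i) * x ^ (i : ℕ) := by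
  induction h using AddSubgroup.closure_induction with
  | mem _ h =>
    obtain ⟨r, i, hi, rfl⟩ := h
    refine ⟨Pi.single ⟨i, by omega⟩ r, ?_⟩
    rw [Finset.sum_eq_single ⟨i, by omega⟩] <;> simp +contextual
  | zero => exact ⟨0, by simp⟩
  | add _ _ _ _ h1 h2 =>
    obtain ⟨r, rfl⟩ := h1
    obtain ⟨s, rfl⟩ := h2
    exact ⟨r + s, by simp [add_mul, Finset.sum_add_distrib]⟩
  | neg _ _ h =>
    obtain ⟨r, rfl⟩ := h
    exact ⟨-r, by simp⟩

lemma F_lr (s : S) (j : ℕ) {k : ℕ} {b : B} (h : b ∈ F ι x k) : ι s * b * x ^ j ∈ F ι x (k + j) := by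
  induction h using AddSubgroup.closure_induction with
  | mem _ h =>
    obtain ⟨r, i, hi, rfl⟩ := h
    exact AddSubgroup.subset_closure ⟨s * r, i + j, by omega, by simp [mul_assoc, pow_add]⟩
  | zero => simp
  | add _ _ _ _ h1 h2 => simpa [mul_add, add_mul] using add_mem h1 h2
  | neg _ _ h => simpa using h

variable (h1 : ∀ r, ∃ s t, x * ι r = ι s * x + ι t)
include h1

lemma F_pow : ∀ (i : ℕ) (r : S), x ^ i * ι r ∈ F ι x i
  | 0, r => AddSubgroup.subset_closure ⟨r, 0, le_rfl, by simp⟩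
  | i + 1, r => by
    obtain ⟨s, t, h⟩ := h1 r
    rw [pow_succ, mul_assoc, h, mul_add, ← mul_assoc]
    exact add_mem (by simpa using F_lr ι x 1 1 (F_pow i s)) (F_mono ι x i.le_succ (F_pow i t))

lemma F_mul {k l : ℕ} {a b : B} (ha : a ∈ F ι x k) (hb : b ∈ F ι x l) : a * b ∈ F ι x (k + l) := by
  obtain ⟨r, rfl⟩ := F_rep ι x ha
  obtain ⟨s, rfl⟩ := F_rep ι x hb
  rw [Finset.sum_mul_sum]
  refine sum_mem fun i _ => sum_mem fun j _ => F_mono ι x (by omega : (i : ℕ) + j ≤ k + l) ?_
  simpa [mul_assoc] using F_lr ι x (r i) j (F_pow ι x h1 i (s j))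

lemma gen (hι : Injective ι) (h2 : ∀ b, ∃ k, b ∈ F ι x k) [StrongRankCondition S] :
    StrongRankCondition B := by
  classical
  rw [strongRankCondition_iff_succ]
  intro n f hf
  obtain ⟨M, rfl⟩ := Matrix.toLinearMapRight'.surjective f
  choose d hd using h2
  let k := Finset.univ.sup fun p : Fin (n + 1) × Fin n => d (M p.1 p.2)
  have hM : ∀ i j, M i j ∈ F ι x k := fun i j =>
    F_mono ι x (Finset.le_sup (f := fun p : Fin (n + 1) × Fin n => d (M p.1 p.2))
      (Finset.mem_univ (i, j))) (hd _)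
  have key : ∀ t : ℕ, ∃ (P Q : Type) (_ : Fintype P) (_ : Fintype Q) (N : Matrix P Q B),
      Fintype.card P = (n + 1) ^ t ∧ Fintype.card Q = n ^ t ∧
      (∀ i j, N i j ∈ F ι x (t * k)) ∧ ∀ y, y ᵥ* N = 0 → y = 0 := by
    intro t
    induction t with
    | zero => exact ⟨Unit, Unit, inferInstance, inferInstance, 1, by simp, by simp,
        fun i j => AddSubgroup.subset_closure ⟨1, 0, by simp, by simp⟩, fun y h => by simpa using h⟩
    | succ t ih =>
      obtain ⟨P, Q, _, _, N, hP, hQ, h3, h4⟩ := ih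
      refine ⟨P × Fin (n + 1), Q × Fin n, inferInstance, inferInstance,
        of fun i j => N i.1 j.1 * M i.2 j.2, by simp [hP, pow_succ], by simp [hQ, pow_succ],
        fun i j => by simpa [add_mul] using F_mul ι x h1 (h3 _ _) (hM _ _), fun y h => ?_⟩
      funext ⟨a, b⟩
      refine congrFun (h4 (fun a => y (a, b)) (funext fun c => ?_)) a
      refine congrFun (hf (a₁ := fun b => ((fun a => y (a, b)) ᵥ* N) c) (a₂ := 0)
        (funext fun e => ?_)) b
      simpa [vecMul, dotProduct, Finset.sum_mul, mul_assoc, Fintype.sum_prod_type_right]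
        using congrFun h (c, e)
  have le : ∀ t : ℕ, (n + 1) ^ t ≤ n ^ t * (t * k + 1) := fun t => by
    obtain ⟨P, Q, _, _, N, hP, hQ, h3, h4⟩ := key t
    choose c hc using fun i j => F_rep ι x (h3 i j)
    simpa [hP, hQ] using card_le_of_injective S (Matrix.toLinearMapRight'
      (of fun i (p : Q × Fin (t * k + 1)) => c i p.1 p.2))
      ((injective_iff_map_eq_zero _).2 fun y h => funext fun i => hι (by
        simpa using congrFun (h4 (fun i => ι (y i)) (funext fun j => by
          have : ∀ l, ∑ i, ι (y i) * ι (c i j l) = 0 := fun l => by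
            simpa [vecMul, dotProduct] using congrArg ι (congrFun h (j, l))
          simp only [vecMul, dotProduct, hc, Finset.mul_sum, ← mul_assoc]
          rw [Finset.sum_comm]
          simp [← Finset.sum_mul, this])) i))
  rcases n.eq_zero_or_pos with rfl | hn
  · simpa using le 1
  have hn' : (0 : ℝ) < n := by exact_mod_cast hn
  have l := tendsto_pow_const_div_const_pow_of_one_lt (r := (n + 1 : ℝ) / n) 1
    ((one_lt_div hn').2 (by linarith))
  obtain ⟨t, ht, ht'⟩ := ((l.eventually (gt_mem_nhds (show (0 : ℝ) < 1 / (k + 1) by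
    positivity))).and (Filter.eventually_ge_atTop 1)).exists
  have := (Nat.cast_le (α := ℝ)).2 ((le t).trans (Nat.mul_le_mul_left _
    (show _ ≤ t * (k + 1) by nlinarith)))
  push_cast at this
  rw [div_lt_div_iff₀ (by positivity) (by positivity), div_pow, one_mul,
    lt_div_iff₀ (by positivity)] at ht
  nlinarith

omit h1 in
theorem result (R A : Type*) [Ring R] [Ring A] (σ : R →+* R) (δ : R →+ R)
    (_ : ∀ r s, δ (r * s) = δ r * s + σ r * δ s) (ι : R →+* A) (x : A)
    (hx : ∀ r, x * ι r = ι (σ r) * x + ι (δ r))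
    (hA : Bijective fun f : ℕ →₀ R => f.sum fun i r => ι r * x ^ i)
    (hσ : Surjective σ) (hR : StrongRankCondition Rᵐᵒᵖ) : StrongRankCondition Aᵐᵒᵖ := by
  have h1 : ∀ r, ∃ s t, op x * ι.op r = ι.op s * op x + ι.op t := fun r => by
    obtain ⟨s, h⟩ := hσ r.unop
    exact ⟨op s, op (-δ s), unop_injective (by simp [hx, h])⟩
  refine gen ι.op (op x) h1 (fun r s h => unop_injective ?_) fun b => ?_
  · exact Finsupp.single_injective 0 (hA.1 (by simpa using h))
  · obtain ⟨f, h⟩ := hA.2 b.unop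
    refine ⟨f.support.sup id, ?_⟩
    rw [← op_unop b, ← h]
    simp only [Finsupp.sum, Finset.op_sum]
    exact sum_mem fun i hi => F_mono _ _ (Finset.le_sup (f := id) hi)
      (by simpa using F_pow ι.op (op x) h1 i (op (f i)))

end Pool.Agent.Results.MP_62e324_al.Yes
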